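import Pool.Agent.W2helper34.BO.Main

/-!
# Groups mapping to the units of graded rings

Let `C` be a class of groups which contains the virtually solvable groups and which is closed under
subgroups, under extensions (if `Q` and the preimages in `G` of the finite subgroups of `Q` are in `C`,
then so is `G`) and under actions on trees (if the stabilizers of the vertices and the setwise
stabilizers of the edges are in `C`, then so is the group): `ClosedB C`. For example, the class of
the groups `G` such that the Bost conjecture with coefficients holds for every countable group with
a homomorphism to `G` as soon as it holds for the preimages of the finite subgroups of `G`.

Let `R = R_0 ⊕ R_1 ⊕ R_2 ⊕ ...` be a graded ring which has a homomorphism with nilpotent kernel to a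
finite product of rings of `2 × 2` matrices over division rings (for example, the ring of `2 × 2`
matrices over a graded ring which embeds in a division ring, as the free algebras, the quantum affine
spaces and the enveloping algebras of the positively graded Lie algebras; or the ring of block
triangular matrices, with blocks of size at most two, over such a ring).

We prove that a group `P` with a homomorphism `φ` to the group of units of `R` is in `C` as soon as the
image of `P` in the group of units of `R_0` and the preimages of the finite subgroups of the group of
units of `R` are in `C`.

The proof: the ring `R` is mapped to the rings of `2 × 2` matrices over the polynomial rings `D[x]`, and
the degree is a discrete valuation of the division ring of fractions of `D[x]`, so that the group acts on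
the trees of these division rings. The stabilizers have bounded degree, and so they are detected in
the truncations of `R`: they are extensions of subgroups of the image in the units of `R_0` by
solvable groups.
-/

set_option autoImplicit false

namespace Pool.Agent.Results.MP_566e43_al.UnitsOfGradedRings

open Pool.Agent.W2helper34.BO

/-- Let `C` be a class of groups with the closure properties `ClosedB`, let `R` be a graded ring which has
a homomorphism with nilpotent kernel to a finite product of rings of `2 × 2` matrices over division
rings, and let `φ` be a homomorphism of a group `P` to the group of units of `R` such that the
preimages of the finite subgroups are in `C`. If the image of `P` in the group of units of the ring of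
the elements of degree zero is in `C` then `P` is in `C`. -/
theorem result (C : ∀ (G : Type) [Group G], Prop) (hC : ClosedB C) (R : Type) [Ring R]
    (𝒜 : ℕ → AddSubgroup R) [GradedRing 𝒜] (hR : RankTwoModNilpotent R) (P : Type) [Group P]
    (φ : P →* Rˣ) (hφ : ∀ F : Subgroup Rˣ, Finite F → C (F.comap φ))
    (h0 : C ((unitsZero 𝒜).comp φ).range) : C P :=
  Pool.Agent.W2helper34.BO.main hC 𝒜 hR φ hφ h0

end Pool.Agent.Results.MP_566e43_al.UnitsOfGradedRings
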